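import Mathlib

/-!
# Repeated obtuse angles in six-dimensional space

For every `α ∈ (0, π)`, in particular for every obtuse `α`, the maximal number `B_6(n, α)` of ordered
triples of distinct points with `∠ X Y Z = α` among `n` points of `ℝ⁶` has order of magnitude `n³`.

Construction: `X` runs over a small circle about `(0,0,0,0,-1,0)` in the first coordinate plane, `Z` over
a small circle about `(0,0,0,0,1,0)` in the second coordinate plane, and `Y` lies in the third coordinate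
plane.  The angle `∠ X Y Z` then depends on `Y` only, and takes the value `α` on a whole curve.
-/

set_option autoImplicit false

namespace Pool.Agent.Results.MP_6251d3_co.CubicOrder

open Finset EuclideanGeometry Filter Asymptotics

/-- The number of ordered triples `(X, Y, Z)` of distinct points of `S` with `∠ X Y Z = α`
(the angle at the vertex `Y`). -/
noncomputable def angleCount {k : ℕ} (S : Finset (EuclideanSpace ℝ (Fin k))) (α : ℝ) : ℕ :=
  Set.ncard {t : EuclideanSpace ℝ (Fin k) × EuclideanSpace ℝ (Fin k) × EuclideanSpace ℝ (Fin k) |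
    t.1 ∈ S ∧ t.2.1 ∈ S ∧ t.2.2 ∈ S ∧ t.1 ≠ t.2.1 ∧ t.2.1 ≠ t.2.2 ∧ t.1 ≠ t.2.2 ∧
      ∠ t.1 t.2.1 t.2.2 = α}

/-- `B_k(n, α)`: the maximum of `angleCount S α` over all `n`-point sets `S` in `ℝ^k`. -/
noncomputable def B (k n : ℕ) (α : ℝ) : ℕ :=
  sSup {c : ℕ | ∃ S : Finset (EuclideanSpace ℝ (Fin k)), S.card = n ∧ angleCount S α = c}

abbrev E := EuclideanSpace ℝ (Fin 6)

/-! ### Elementary facts on the count -/

theorem set_subset {k : ℕ} (S : Finset (EuclideanSpace ℝ (Fin k))) (α : ℝ) :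
    {t : EuclideanSpace ℝ (Fin k) × EuclideanSpace ℝ (Fin k) × EuclideanSpace ℝ (Fin k) |
    t.1 ∈ S ∧ t.2.1 ∈ S ∧ t.2.2 ∈ S ∧ t.1 ≠ t.2.1 ∧ t.2.1 ≠ t.2.2 ∧ t.1 ≠ t.2.2 ∧
      ∠ t.1 t.2.1 t.2.2 = α} ⊆ ((S ×ˢ S ×ˢ S : Finset _) : Set _) := by
  intro t ht
  simp only [Finset.coe_product, Set.mem_prod, Finset.mem_coe]
  exact ⟨ht.1, ht.2.1, ht.2.2.1⟩

theorem count_le {k : ℕ} (S : Finset (EuclideanSpace ℝ (Fin k))) (α : ℝ) :
    angleCount S α ≤ S.card ^ 3 := by
  have h := Set.ncard_le_ncard (set_subset S α) (Finset.finite_toSet _)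
  rw [Set.ncard_coe_finset, Finset.card_product, Finset.card_product] at h
  unfold angleCount
  calc _ ≤ _ := h
    _ = S.card ^ 3 := by ring

theorem B_le (k n : ℕ) (α : ℝ) : B k n α ≤ n ^ 3 := by
  unfold B
  rcases Set.eq_empty_or_nonempty {c : ℕ | ∃ S : Finset (EuclideanSpace ℝ (Fin k)),
    S.card = n ∧ angleCount S α = c} with h | h
  · rw [h]; simp
  · apply csSup_le h
    rintro c ⟨S, hS, rfl⟩
    rw [← hS]; exact count_le S α

theorem le_B {k n : ℕ} {α : ℝ} (S : Finset (EuclideanSpace ℝ (Fin k))) (hS : S.card = n) :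
    angleCount S α ≤ B k n α := by
  have hb : BddAbove {c : ℕ | ∃ S : Finset (EuclideanSpace ℝ (Fin k)), S.card = n ∧
      angleCount S α = c} := by
    refine ⟨n ^ 3, ?_⟩
    rintro c ⟨T, hT, rfl⟩
    rw [← hT]; exact count_le T α
  exact le_csSup hb ⟨S, hS, rfl⟩

/-! ### The construction -/

/-- Points of the first circle. -/
noncomputable def px (e : ℝ) (j : ℕ) : E :=
  !₂[e * Real.cos (1 / (j + 1)), e * Real.sin (1 / (j + 1)), 0, 0, -1, 0]

/-- Points of the second circle. -/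
noncomputable def pz (e : ℝ) (j : ℕ) : E :=
  !₂[0, 0, e * Real.cos (1 / (j + 1)), e * Real.sin (1 / (j + 1)), 1, 0]

/-- Points of the third coordinate plane. -/
noncomputable def py (p q : ℝ) : E := !₂[0, 0, 0, 0, p, q]

/-- The cosine of the angle as a function of the vertex. -/
noncomputable def F (e p q : ℝ) : ℝ :=
  (p ^ 2 + q ^ 2 - 1) / (√(e ^ 2 + (1 + p) ^ 2 + q ^ 2) * √(e ^ 2 + (1 - p) ^ 2 + q ^ 2))

theorem angle_eq (e p q : ℝ) (i j : ℕ) :
    ∠ (px e i) (py p q) (pz e j) = Real.arccos (F e p q) := by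
  have h1 : inner ℝ (px e i - py p q) (pz e j - py p q) = p ^ 2 + q ^ 2 - 1 := by
    rw [PiLp.inner_apply]
    simp [Fin.sum_univ_six, px, py, pz]
    ring
  have hcs : ∀ k : ℕ, (Real.cos (1 / (k + 1))) ^ 2 + (Real.sin (1 / (k + 1))) ^ 2 = 1 :=
    fun k => Real.cos_sq_add_sin_sq _
  have h2 : ‖px e i - py p q‖ = √(e ^ 2 + (1 + p) ^ 2 + q ^ 2) := by
    rw [EuclideanSpace.norm_eq]
    congr 1
    simp only [Fin.sum_univ_six, Real.norm_eq_abs, sq_abs]
    simp [px, py]
    have := hcs i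
    simp only [one_div] at this
    linear_combination (e ^ 2) * this
  have h3 : ‖pz e j - py p q‖ = √(e ^ 2 + (1 - p) ^ 2 + q ^ 2) := by
    rw [EuclideanSpace.norm_eq]
    congr 1
    simp only [Fin.sum_univ_six, Real.norm_eq_abs, sq_abs]
    simp [pz, py]
    have := hcs j
    simp only [one_div] at this
    linear_combination (e ^ 2) * this
  unfold EuclideanGeometry.angle InnerProductGeometry.angle
  rw [vsub_eq_sub, vsub_eq_sub, h1, h2, h3]
  rfl

theorem cont_F (e : ℝ) (he : 0 < e) : Continuous fun t : ℝ × ℝ => F e t.1 t.2 := by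
  unfold F
  apply Continuous.div (by fun_prop) (by fun_prop)
  intro t
  have h1 : 0 < √(e ^ 2 + (1 + t.1) ^ 2 + t.2 ^ 2) := Real.sqrt_pos.2 (by positivity)
  have h2 : 0 < √(e ^ 2 + (1 - t.1) ^ 2 + t.2 ^ 2) := Real.sqrt_pos.2 (by positivity)
  positivity

theorem F_zero (e : ℝ) : F e 0 0 = -1 / (e ^ 2 + 1) := by
  unfold F
  rw [show e ^ 2 + (1 + 0) ^ 2 + 0 ^ 2 = e ^ 2 + 1 by ring,
    show e ^ 2 + (1 - 0) ^ 2 + 0 ^ 2 = e ^ 2 + 1 by ring, Real.mul_self_sqrt (by positivity)]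
  norm_num

/-- far out on a vertical line the cosine is as close to `1` as we like -/
theorem F_large (e p c : ℝ) (hp : |p| ≤ 1) (hc : c < 1) (he : 0 < e) (he1 : e ≤ 1) :
    ∃ q : ℝ, 0 ≤ q ∧ c < F e p q := by
  have hp2 : p ^ 2 ≤ 1 := by rw [← sq_abs]; nlinarith [abs_nonneg p]
  obtain ⟨p1, p2⟩ := abs_le.1 hp
  -- both square roots are at most `√(5 + q²)`
  have key : ∀ q : ℝ, 1 ≤ q → (q ^ 2 - 1) / (5 + q ^ 2) ≤ F e p q := by
    intro q hq
    unfold F
    have a1 : √(e ^ 2 + (1 + p) ^ 2 + q ^ 2) ≤ √(5 + q ^ 2) := Real.sqrt_le_sqrt (by nlinarith)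
    have a2 : √(e ^ 2 + (1 - p) ^ 2 + q ^ 2) ≤ √(5 + q ^ 2) := Real.sqrt_le_sqrt (by nlinarith)
    have a3 : √(e ^ 2 + (1 + p) ^ 2 + q ^ 2) * √(e ^ 2 + (1 - p) ^ 2 + q ^ 2) ≤ 5 + q ^ 2 := by
      calc _ ≤ √(5 + q ^ 2) * √(5 + q ^ 2) := mul_le_mul a1 a2 (Real.sqrt_nonneg _)
            (Real.sqrt_nonneg _)
        _ = _ := Real.mul_self_sqrt (by positivity)
    have a4 : 0 < √(e ^ 2 + (1 + p) ^ 2 + q ^ 2) * √(e ^ 2 + (1 - p) ^ 2 + q ^ 2) :=
      mul_pos (Real.sqrt_pos.2 (by positivity)) (Real.sqrt_pos.2 (by positivity))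
    apply div_le_div₀ (by nlinarith [sq_nonneg p]) (by nlinarith [sq_nonneg p]) a4 a3
  -- choose `q` with `6/(5+q²) < 1 - c`
  refine ⟨1 + 6 / (1 - c), by have : 0 < 1 - c := by linarith
                              positivity, ?_⟩
  have h1c : 0 < 1 - c := by linarith
  have h6 : 0 < 6 / (1 - c) := by positivity
  refine lt_of_lt_of_le ?_ (key _ (by linarith))
  set q := 1 + 6 / (1 - c) with hq
  rw [lt_div_iff₀ (by positivity)]
  have h2 : (q - 1) * (1 - c) = 6 := by rw [hq]; field_simp; ring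
  have h3 : 1 ≤ q := by rw [hq]; linarith
  nlinarith

/-- there is a nontrivial interval of `p` for which the angle `arccos c` is attained -/
theorem exists_curve (c : ℝ) (h1 : -1 < c) (h2 : c < 1) :
    ∃ e η : ℝ, 0 < e ∧ 0 < η ∧ ∀ p, 0 ≤ p → p ≤ η → ∃ q, F e p q = c := by
  -- choose `e`
  obtain ⟨e, he0, he1, he⟩ : ∃ e : ℝ, 0 < e ∧ e ≤ 1 ∧ -1 / (e ^ 2 + 1) < c := by
    refine ⟨min 1 ((1 + c) / 2), ?_, min_le_left _ _, ?_⟩
    · apply lt_min one_pos; linarith
    · set e := min 1 ((1 + c) / 2) with he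
      have a1 : e ≤ 1 := min_le_left _ _
      have a2 : e ≤ (1 + c) / 2 := min_le_right _ _
      have a3 : 0 < e := lt_min one_pos (by linarith)
      rw [div_lt_iff₀ (by positivity)]
      have a4 : e ^ 2 ≤ e := by nlinarith
      nlinarith
  have hcont : Continuous fun p : ℝ => F e p 0 :=
    (cont_F e he0).comp (continuous_id.prodMk continuous_const)
  have hev : ∀ᶠ p in nhds (0 : ℝ), F e p 0 < c := by
    apply hcont.continuousAt.eventually_lt continuousAt_const
    rw [F_zero]; exact he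
  obtain ⟨δ, hδ, hδ2⟩ := Metric.eventually_nhds_iff.1 hev
  refine ⟨e, min (δ / 2) 1, he0, lt_min (by linarith) one_pos, fun p hp0 hp => ?_⟩
  have hpδ : p ≤ δ / 2 := hp.trans (min_le_left _ _)
  have hp1 : p ≤ 1 := hp.trans (min_le_right _ _)
  have hlow : F e p 0 < c := by
    apply hδ2
    rw [Real.dist_eq, sub_zero, abs_of_nonneg hp0]; linarith
  obtain ⟨Q, hQ, hhigh⟩ := F_large e p c (by rw [abs_of_nonneg hp0]; exact hp1) h2 he0 he1
  have hcq : ContinuousOn (fun q : ℝ => F e p q) (Set.Icc 0 Q) :=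
    ((cont_F e he0).comp (continuous_const.prodMk continuous_id)).continuousOn
  obtain ⟨q, -, hq⟩ := intermediate_value_Icc hQ hcq ⟨hlow.le, hhigh.le⟩
  exact ⟨q, hq⟩

theorem px_inj (e : ℝ) (he : 0 < e) : Function.Injective (px e) := by
  intro i j h
  have h0 : px e i 0 = px e j 0 := by rw [h]
  simp [px] at h0
  rcases h0 with h0 | h0
  · have hmem : ∀ k : ℕ, (((k : ℝ) + 1)⁻¹) ∈ Set.Icc 0 Real.pi := fun k => by
      refine ⟨by positivity, ?_⟩
      have : ((k : ℝ) + 1)⁻¹ ≤ 1 := inv_le_one_of_one_le₀ (by linarith [Nat.cast_nonneg (α := ℝ) k])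
      linarith [Real.pi_gt_three]
    have := Real.injOn_cos (hmem i) (hmem j) h0
    simpa using this
  · exact absurd h0 he.ne'

theorem pz_inj (e : ℝ) (he : 0 < e) : Function.Injective (pz e) := by
  intro i j h
  have h0 : pz e i 2 = pz e j 2 := by rw [h]
  simp [pz] at h0
  rcases h0 with h0 | h0
  · have hmem : ∀ k : ℕ, (((k : ℝ) + 1)⁻¹) ∈ Set.Icc 0 Real.pi := fun k => by
      refine ⟨by positivity, ?_⟩
      have : ((k : ℝ) + 1)⁻¹ ≤ 1 := inv_le_one_of_one_le₀ (by linarith [Nat.cast_nonneg (α := ℝ) k])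
      linarith [Real.pi_gt_three]
    have := Real.injOn_cos (hmem i) (hmem j) h0
    simpa using this
  · exact absurd h0 he.ne'

theorem px_ne_pz (e : ℝ) (i j : ℕ) : px e i ≠ pz e j := by
  intro h
  have h0 : px e i 4 = pz e j 4 := by rw [h]
  simp [px, pz] at h0
  norm_num at h0

theorem cos_pos' (k : ℕ) : 0 < Real.cos (1 / ((k : ℝ) + 1)) := by
  apply Real.cos_pos_of_mem_Ioo
  have h1 : 0 < 1 / ((k : ℝ) + 1) := by positivity
  have h2 : 1 / ((k : ℝ) + 1) ≤ 1 := by
    rw [div_le_one (by positivity)]; linarith [Nat.cast_nonneg (α := ℝ) k]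
  constructor <;> linarith [Real.pi_gt_three]

theorem px_ne_py (e : ℝ) (he : 0 < e) (i : ℕ) (p q : ℝ) : px e i ≠ py p q := by
  intro h
  have h0 : px e i 0 = py p q 0 := by rw [h]
  simp [px, py] at h0
  rcases h0 with h0 | h0
  · exact he.ne' h0
  · have := cos_pos' i
    simp only [one_div] at this
    exact this.ne' h0

theorem pz_ne_py (e : ℝ) (he : 0 < e) (i : ℕ) (p q : ℝ) : pz e i ≠ py p q := by
  intro h
  have h0 : pz e i 2 = py p q 2 := by rw [h]
  simp [pz, py] at h0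
  rcases h0 with h0 | h0
  · exact he.ne' h0
  · have := cos_pos' i
    simp only [one_div] at this
    exact this.ne' h0

/-- `n = a + b + c` points with at least `a b c` triples with angle `α`. -/
theorem exists_set (α : ℝ) (h0 : 0 < α) (hπ : α < Real.pi) (a b c : ℕ) :
    ∃ S : Finset E, S.card = a + b + c ∧ a * b * c ≤ angleCount S α := by
  classical
  have hc1 : -1 < Real.cos α := by
    have := Real.strictAntiOn_cos ⟨h0.le, hπ.le⟩ ⟨Real.pi_pos.le, le_rfl⟩ hπ
    simpa using this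
  have hc2 : Real.cos α < 1 := by
    have := Real.strictAntiOn_cos ⟨le_rfl, Real.pi_pos.le⟩ ⟨h0.le, hπ.le⟩ h0
    simpa using this
  obtain ⟨e, η, he, hη, hq⟩ := exists_curve (Real.cos α) hc1 hc2
  have hq' : ∀ j : ℕ, ∃ q, F e (η / (j + 1)) q = Real.cos α := fun j => by
    apply hq _ (by positivity)
    rw [div_le_iff₀ (by positivity)]
    nlinarith [Nat.cast_nonneg (α := ℝ) j]
  choose q hq using hq'
  set y : ℕ → E := fun j => py (η / (j + 1)) (q j) with hy
  have y_inj : Function.Injective y := by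
    intro i j h
    have h0 : y i 4 = y j 4 := by rw [h]
    simp only [hy, py] at h0
    simp at h0
    field_simp at h0
    have : (j : ℝ) = i := by nlinarith
    exact_mod_cast this.symm
  have hang : ∀ i j k, ∠ (px e i) (y j) (pz e k) = α := by
    intro i j k
    rw [hy]
    simp only
    rw [angle_eq, hq j, Real.arccos_cos h0.le hπ.le]
  set X := (range a).image (px e) with hX
  set Y := (range b).image y with hY
  set Z := (range c).image (pz e) with hZ
  have cX : X.card = a := by rw [hX, card_image_of_injective _ (px_inj e he), card_range]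
  have cY : Y.card = b := by rw [hY, card_image_of_injective _ y_inj, card_range]
  have cZ : Z.card = c := by rw [hZ, card_image_of_injective _ (pz_inj e he), card_range]
  have dXY : Disjoint X Y := by
    rw [Finset.disjoint_left]
    intro t ht ht'
    rw [hX, mem_image] at ht
    rw [hY, mem_image] at ht'
    obtain ⟨i, -, rfl⟩ := ht
    obtain ⟨j, -, h⟩ := ht'
    exact px_ne_py e he i _ _ h.symm
  have dXZ : Disjoint X Z := by
    rw [Finset.disjoint_left]
    intro t ht ht'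
    rw [hX, mem_image] at ht
    rw [hZ, mem_image] at ht'
    obtain ⟨i, -, rfl⟩ := ht
    obtain ⟨j, -, h⟩ := ht'
    exact px_ne_pz e i j h.symm
  have dYZ : Disjoint Y Z := by
    rw [Finset.disjoint_left]
    intro t ht ht'
    rw [hY, mem_image] at ht
    rw [hZ, mem_image] at ht'
    obtain ⟨i, -, rfl⟩ := ht
    obtain ⟨j, -, h⟩ := ht'
    exact pz_ne_py e he j _ _ h
  refine ⟨X ∪ Y ∪ Z, ?_, ?_⟩
  · rw [card_union_of_disjoint (disjoint_union_left.2 ⟨dXZ, dYZ⟩), card_union_of_disjoint dXY, cX,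
      cY, cZ]
  · have hsub : ((X ×ˢ Y ×ˢ Z : Finset (E × E × E)) : Set (E × E × E)) ⊆
        {t : E × E × E | t.1 ∈ X ∪ Y ∪ Z ∧ t.2.1 ∈ X ∪ Y ∪ Z ∧ t.2.2 ∈ X ∪ Y ∪ Z ∧ t.1 ≠ t.2.1 ∧
          t.2.1 ≠ t.2.2 ∧ t.1 ≠ t.2.2 ∧ ∠ t.1 t.2.1 t.2.2 = α} := by
      rintro ⟨x, y', z⟩ ht
      simp only [Finset.coe_product, Set.mem_prod, Finset.mem_coe] at ht
      obtain ⟨hx, hy', hz⟩ := ht
      refine ⟨by simp [hx], by simp [hy'], by simp [hz], ?_, ?_, ?_, ?_⟩
      · intro h
        have h' : x = y' := h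
        exact (Finset.disjoint_left.1 dXY) hx (h' ▸ hy')
      · intro h
        have h' : y' = z := h
        exact (Finset.disjoint_left.1 dYZ) hy' (h' ▸ hz)
      · intro h
        have h' : x = z := h
        exact (Finset.disjoint_left.1 dXZ) hx (h' ▸ hz)
      · rw [hX, mem_image] at hx
        rw [hY, mem_image] at hy'
        rw [hZ, mem_image] at hz
        obtain ⟨i, -, rfl⟩ := hx
        obtain ⟨j, -, rfl⟩ := hy'
        obtain ⟨k, -, rfl⟩ := hz
        exact hang i j k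
    have h := Set.ncard_le_ncard hsub ((Finset.finite_toSet _).subset (set_subset (X ∪ Y ∪ Z) α))
    rw [Set.ncard_coe_finset, card_product, card_product, cX, cY, cZ] at h
    calc a * b * c = a * (b * c) := by ring
      _ ≤ _ := h

/-- For every angle `α` strictly between `0` and `π`, in particular for every obtuse angle, the
maximal number `B_6(n, α)` of triples with angle `α` among `n` points in `ℝ⁶` has order of
magnitude `n³`; precisely `n³/125 ≤ B_6(n, α) ≤ n³` for all `n ≥ 3`. -/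
theorem result (α : ℝ) (h0 : 0 < α) (hπ : α < Real.pi) :
    (∀ n : ℕ, 3 ≤ n → (n : ℝ) ^ 3 / 125 ≤ B 6 n α ∧ (B 6 n α : ℝ) ≤ (n : ℝ) ^ 3) ∧
    (fun n : ℕ => (B 6 n α : ℝ)) =Θ[atTop] (fun n : ℕ => (n : ℝ) ^ 3) := by
  have key : ∀ n : ℕ, 3 ≤ n → (n : ℝ) ^ 3 / 125 ≤ B 6 n α ∧ (B 6 n α : ℝ) ≤ (n : ℝ) ^ 3 := by
    intro n hn
    refine ⟨?_, by exact_mod_cast B_le 6 n α⟩
    set m := n / 3 with hm
    obtain ⟨S, hS, hS2⟩ := exists_set α h0 hπ (n - 2 * m) m m
    have hcard : S.card = n := by rw [hS]; omega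
    have h1 := hS2.trans (le_B (α := α) S hcard)
    have h2 : m * m * m ≤ (n - 2 * m) * m * m := by
      apply Nat.mul_le_mul_right; apply Nat.mul_le_mul_right; omega
    have h3 : m * m * m ≤ B 6 n α := h2.trans h1
    have h4 : (n : ℝ) ≤ 5 * m := by
      have : n ≤ 5 * m := by omega
      exact_mod_cast this
    have h5 : ((m : ℝ) * m * m) ≤ B 6 n α := by exact_mod_cast h3
    have h6 : (n : ℝ) ^ 3 ≤ (5 * m) ^ 3 := pow_le_pow_left₀ (Nat.cast_nonneg n) h4 3
    nlinarith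
  refine ⟨key, ?_, ?_⟩
  · refine IsBigO.of_bound 1 ?_
    filter_upwards [eventually_ge_atTop 3] with n hn
    rw [Real.norm_of_nonneg (Nat.cast_nonneg _), Real.norm_of_nonneg (by positivity), one_mul]
    exact (key n hn).2
  · refine IsBigO.of_bound 125 ?_
    filter_upwards [eventually_ge_atTop 3] with n hn
    rw [Real.norm_of_nonneg (Nat.cast_nonneg _), Real.norm_of_nonneg (by positivity)]
    linarith [(key n hn).1]

end Pool.Agent.Results.MP_6251d3_co.CubicOrder
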